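import Pool.Agent.Y187.WQ.Stm

/-!
Project WQ of helper187, job WQ-SPAN (by helper739): commuting with unitaries is enough in corners.
-/

set_option autoImplicit false

open scoped ComplexOrder InnerProductSpace
open Finset Filter

noncomputable section

namespace Pool.Agent.Y739.WQ

open H759R2.Kad (IsFac IsPr Prj Fnt)
open Pool.Agent.Y187.WQ

section

variable {H : Type} [NormedAddCommGroup H] [InnerProductSpace ℂ H] [CompleteSpace H]

/-- The elements of `N` which commute with `q`. -/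
def Nq (N : VonNeumannAlgebra H) (q : H →L[ℂ] H) : StarSubalgebra ℂ (H →L[ℂ] H) :=
  N.toStarSubalgebra ⊓ StarSubalgebra.centralizer ℂ {q}

theorem Nq_closed (N : VonNeumannAlgebra H) (q : H →L[ℂ] H) :
    IsClosed (Nq N q : Set (H →L[ℂ] H)) := by
  have h1 : (Nq N q : Set (H →L[ℂ] H)) =
      Set.centralizer (Set.centralizer (N : Set (H →L[ℂ] H))) ∩
        Set.centralizer ({q} ∪ star {q}) := by
    rw [VonNeumannAlgebra.centralizer_centralizer]
    rfl
  rw [h1]
  exact (Set.isClosed_centralizer _).inter (Set.isClosed_centralizer _)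

theorem mem_Nq {N : VonNeumannAlgebra H} {q : H →L[ℂ] H} (hq : star q = q) {a : H →L[ℂ] H} :
    a ∈ Nq N q ↔ a ∈ N ∧ q * a = a * q := by
  have h1 : a ∈ Nq N q ↔ a ∈ N ∧ a ∈ StarSubalgebra.centralizer ℂ {q} := Iff.rfl
  rw [h1, StarSubalgebra.mem_centralizer_iff]
  constructor
  · rintro ⟨h2, h3⟩
    exact ⟨h2, (h3 q rfl).1⟩
  · rintro ⟨h2, h3⟩
    refine ⟨h2, ?_⟩
    intro g hg
    rw [Set.mem_singleton_iff] at hg
    rw [hg, hq]
    exact ⟨h3, h3⟩

end

theorem t_span : W_span := by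
  intro H _ _ _ N q hqN hq y hy a haN haq
  obtain ⟨hqs, hqq⟩ := hq
  have h1 : q * a = a := by
    rw [← haq, ← mul_assoc, ← mul_assoc, hqq]
  have h2 : a * q = a := by
    rw [← haq, mul_assoc, hqq]
  have haS : a ∈ Nq N q := (mem_Nq hqs).2 ⟨haN, by rw [h1, h2]⟩
  haveI : IsClosed (Nq N q : Set (H →L[ℂ] H)) := Nq_closed N q
  obtain ⟨u, c, hu, -⟩ := CStarAlgebra.exists_sum_four_unitary (⟨a, haS⟩ : Nq N q)
  have hua : a = ∑ i, c i • ((u i : Nq N q) : H →L[ℂ] H) := by
    have h3 := congrArg (fun z : Nq N q => (z : H →L[ℂ] H)) hu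
    simpa using h3
  have key : ∀ i, ((u i : Nq N q) : H →L[ℂ] H) * (q * y * q) =
      q * y * q * ((u i : Nq N q) : H →L[ℂ] H) := by
    intro i
    obtain ⟨v, hv⟩ : ∃ v : H →L[ℂ] H, v = ((u i : Nq N q) : H →L[ℂ] H) := ⟨_, rfl⟩
    rw [← hv]
    have hvS : v ∈ Nq N q := by rw [hv]; exact (u i : Nq N q).2
    obtain ⟨hvN, hvq⟩ := (mem_Nq hqs).1 hvS
    have hui := (u i).2
    rw [Unitary.mem_iff] at hui
    have hv1 : star v * v = 1 := by
      have h3 := congrArg (fun z : Nq N q => (z : H →L[ℂ] H)) hui.1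
      rw [hv]
      exact h3
    have hv2 : v * star v = 1 := by
      have h3 := congrArg (fun z : Nq N q => (z : H →L[ℂ] H)) hui.2
      rw [hv]
      exact h3
    have hvu : v ∈ unitary (H →L[ℂ] H) := Unitary.mem_iff.2 ⟨hv1, hv2⟩
    have h4 := hy v hvu hvN hvq.symm
    have h5 : star v * q = q * star v := by
      have h6 := congrArg star hvq
      rw [star_mul, star_mul, hqs] at h6
      exact h6
    calc v * (q * y * q) = (v * q) * y * q := by simp only [mul_assoc]
      _ = (q * v) * y * (star v * v) * q := by rw [hvq, hv1, mul_one]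
      _ = q * (v * y * star v) * (v * q) := by simp only [mul_assoc]
      _ = q * (v * y * star v) * (q * v) := by rw [hvq]
      _ = (q * (v * y * star v) * q) * v := by simp only [mul_assoc]
      _ = _ := by rw [h4]
  rw [hua, Finset.sum_mul, Finset.mul_sum]
  refine Finset.sum_congr rfl fun i _ => ?_
  rw [smul_mul_assoc, key i, mul_smul_comm]

end Pool.Agent.Y739.WQ
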